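import Pool.Agent.Lib.MP_abd978_an.PL.Defs

/-!
# Project PLANAR, module MEST: the main estimate
-/

set_option autoImplicit false

open MeasureTheory Metric Set Filter Topology ContDiff
open scoped Gradient RealInnerProductSpace

namespace Pool.Agent.Lib.MP_abd978_an.PL.H48

/-- Young's inequality with a cut-off -/
theorem young {P Q δ : ℝ} (h : P.HolderConjugate Q) (hδ : 0 < δ) {m : ℕ} (hm1 : 1 ≤ m)
    (hm : Q ≤ m) : ∃ C : ℝ, 0 ≤ C ∧ ∀ e B Z N : ℝ, 0 ≤ e → e ≤ 1 → 0 ≤ B → 0 ≤ Z → 0 ≤ N →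
      e ^ (m - 1) * (B * Z * N) ≤ δ * (e ^ m * (B ^ P * Z ^ P)) + C * N ^ Q := by
  have hP : 0 < P := h.pos
  have hQ : 0 < Q := h.symm.pos
  have hP1 : 1 < P := h.lt
  have hQ1 : 1 < Q := h.symm.lt
  have hPQ : 1 / P + 1 / Q = 1 := by
    have := h.inv_add_inv_eq_one
    simpa [one_div] using this
  set l : ℝ := δ ^ (1 / P) with hl
  have hl0 : 0 < l := Real.rpow_pos_of_pos hδ _
  have hlP : l ^ P = δ := by
    rw [hl, ← Real.rpow_mul hδ.le, one_div_mul_cancel hP.ne', Real.rpow_one]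
  refine ⟨(1 / l) ^ Q, Real.rpow_nonneg (by positivity) _, ?_⟩
  intro e B Z N he0 he1 hB hZ hN
  have hee : e ^ (m - 1) ≤ e ^ ((m : ℝ) / P) := by
    rw [← Real.rpow_natCast]
    apply Real.rpow_le_rpow_of_exponent_ge' he0 he1 (by positivity)
    rw [Nat.cast_sub hm1, Nat.cast_one]
    have h1 : (m : ℝ) / P = m * (1 / P) := by ring
    have h2 : 1 / P = 1 - 1 / Q := by linarith
    have h3 : 1 ≤ (m : ℝ) * (1 / Q) := by
      rw [mul_one_div, le_div_iff₀ hQ, one_mul]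
      exact hm
    rw [h1, h2]
    nlinarith
  have hy := Real.young_inequality_of_nonneg (a := l * (e ^ ((m : ℝ) / P) * (B * Z)))
    (b := N / l) (by positivity) (by positivity) h
  have h1 : l * (e ^ ((m : ℝ) / P) * (B * Z)) * (N / l) = e ^ ((m : ℝ) / P) * (B * Z * N) := by
    field_simp
  have h2 : (l * (e ^ ((m : ℝ) / P) * (B * Z))) ^ P = δ * (e ^ m * (B ^ P * Z ^ P)) := by
    rw [Real.mul_rpow hl0.le (by positivity), hlP, Real.mul_rpow (by positivity) (by positivity),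
      Real.mul_rpow hB hZ, ← Real.rpow_mul he0, div_mul_cancel₀ _ hP.ne', Real.rpow_natCast]
  have h3 : (N / l) ^ Q = (1 / l) ^ Q * N ^ Q := by
    rw [← Real.mul_rpow (by positivity) hN]
    congr 1
    ring
  rw [h1, h2, h3] at hy
  have h4 : 0 ≤ δ * (e ^ m * (B ^ P * Z ^ P)) := by positivity
  have h5 : 0 ≤ (1 / l) ^ Q * N ^ Q := by positivity
  calc e ^ (m - 1) * (B * Z * N) ≤ e ^ ((m : ℝ) / P) * (B * Z * N) := by gcongr
    _ ≤ δ * (e ^ m * (B ^ P * Z ^ P)) / P + (1 / l) ^ Q * N ^ Q / Q := hy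
    _ ≤ _ := add_le_add (div_le_self h4 hP1.le) (div_le_self h5 hQ1.le)

theorem continuous_rot : Continuous rot := by
  unfold rot
  fun_prop

theorem rot_rot (x : E 2) : rot (rot x) = -x := by
  ext i
  fin_cases i
  · show -(x 0) = -(x 0)
    rfl
  · show -(x 1) = -(x 1)
    rfl

/-- the energy density is integrable -/
theorem energy {p : ℝ} {w : E 2 → ℝ} {D : Set (E 2)} {V : E 2 → E 2} (h : Wt p w D)
    (hV : MemLp V (ENNReal.ofReal p) ((wm w).restrict D)) :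
    Integrable (fun x => w x * ‖V x‖ ^ p) (volume.restrict D) := by
  have hp := h.hp
  have h1 := hV.integrable_norm_rpow (by
    intro h0
    have := one_le_ofReal hp
    rw [h0] at this
    simp at this) ENNReal.ofReal_ne_top
  rw [ENNReal.toReal_ofReal (by linarith)] at h1
  have hm : AEMeasurable (fun x => ENNReal.ofReal (w x)) (volume.restrict D) :=
    h.int.1.aemeasurable.ennreal_ofReal
  rw [wm, restrict_withDensity h.isOpen.measurableSet,
    integrable_withDensity_iff_integrable_smul₀' hm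
      (Eventually.of_forall fun x => ENNReal.ofReal_lt_top)] at h1
  refine h1.congr ?_
  filter_upwards [h.pos] with x hx
  rw [ENNReal.toReal_ofReal hx.le, smul_eq_mul]

theorem bounded_comp {ν : Measure (E 2)} {F : ℝ × ℝ → ℝ} {u v : E 2 → ℝ} (hF : Continuous F)
    (hc : HasCompactSupport F) (hu : AEStronglyMeasurable u ν) (hv : AEStronglyMeasurable v ν) :
    AEStronglyMeasurable (fun x => F (u x, v x)) ν ∧ ∃ M, 0 ≤ M ∧ ∀ y, |F y| ≤ M := by
  refine ⟨hF.comp_aestronglyMeasurable (hu.prodMk hv), ?_⟩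
  obtain ⟨M, hM⟩ := hc.exists_bound_of_continuous hF
  exact ⟨max M 0, le_max_right _ _, fun y => (hM y).trans (le_max_left _ _)⟩

theorem contDiff_fderiv_apply {b : ℝ × ℝ → ℝ} (hb : ContDiff ℝ 1 b) (hc : HasCompactSupport b)
    (z : ℝ × ℝ) : (Continuous fun y => fderiv ℝ b y z) ∧
      HasCompactSupport fun y => fderiv ℝ b y z :=
  ⟨(hb.continuous_fderiv (by simp)).clm_apply continuous_const, hc.fderiv_apply ℝ z⟩

theorem Test.pow {D : Set (E 2)} {η : E 2 → ℝ} (h : Test D η) {m : ℕ} (hm : 1 ≤ m) :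
    Test D fun x => η x ^ m := by
  have h0 : (fun t : ℝ => t ^ m) 0 = 0 := by
    simp only
    exact zero_pow (by omega)
  refine ⟨h.1.pow m, h.2.1.comp_left (g := fun t : ℝ => t ^ m) h0, ?_⟩
  exact (tsupport_comp_subset (g := fun t : ℝ => t ^ m) h0 η).trans h.2.2

theorem grad_pow {D : Set (E 2)} {η : E 2 → ℝ} (h : Test D η) (m : ℕ) (x : E 2) :
    ∇ (fun x => η x ^ m) x = (m * η x ^ (m - 1)) • ∇ η x := by
  have h1 := grad_comp (θ := fun t : ℝ => t ^ m) (h.1.differentiable (by simp) x)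
    (differentiableAt_pow m)
  rw [h1]
  congr 1
  simp

/-- pointwise estimates -/
theorem pw {p α β C₁ G : ℝ} (hp : 1 < p) (hα : 0 < α) (hβ : 0 < β) (hC₁ : 0 < C₁) (hG : 0 < G)
    {m : ℕ} (hm1 : 1 ≤ m) (hmp : p ≤ m) (hmq : p / (p - 1) ≤ m) :
    ∃ C : ℝ, 0 ≤ C ∧ ∀ e y w B k : ℝ, 0 ≤ e → e ≤ 1 → 0 ≤ y → 0 < w → 0 ≤ B → 0 ≤ k →
      (B ^ (p / (p - 1)) ≤ C₁ * k → B * (β * (w * y ^ (p - 1))) * (m * e ^ (m - 1) * G) ≤
        α / 4 * (e ^ m * (k * (w * y ^ p))) + C * w) ∧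
      (B ^ p ≤ C₁ * k → B * y * (m * e ^ (m - 1) * G) ≤
        α / 4 * (e ^ m * (k * (w * y ^ p))) + C * w ^ (-(1 / (p - 1)))) := by
  have hp1 : 0 < p - 1 := by linarith
  have hp0 : 0 < p := by linarith
  have hpq : p.HolderConjugate (p / (p - 1)) := Real.HolderConjugate.conjExponent hp
  have hm0 : (0:ℝ) < m := by
    have : (1:ℝ) ≤ m := by exact_mod_cast hm1
    linarith
  have hq0 : 0 < p / (p - 1) := by positivity
  obtain ⟨Ca, hCa, ha⟩ := young hpq.symm (δ := α / (4 * (β * m * G) * C₁)) (by positivity) hm1 hmp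
  obtain ⟨Cb, hCb, hb⟩ := young hpq (δ := α / (4 * (m * G) * C₁)) (by positivity) hm1 hmq
  have hsum : 1 / (p / (p - 1)) + 1 / p = 1 := by
    field_simp
    ring
  refine ⟨max (β * m * G * Ca) (m * G * Cb), by positivity, ?_⟩
  intro e y w B k he0 he1 hy hw hB hk
  have hT : 0 ≤ e ^ m * (w * y ^ p) := by positivity
  constructor
  · intro hBk
    have h := ha e B (w ^ (1 / (p / (p - 1))) * y ^ (p - 1)) (w ^ (1 / p)) he0 he1 hB
      (by positivity) (by positivity)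
    have e1 : B * (w ^ (1 / (p / (p - 1))) * y ^ (p - 1)) * w ^ (1 / p) =
        B * (w * y ^ (p - 1)) := by
      have : w ^ (1 / (p / (p - 1))) * w ^ (1 / p) = w := by
        rw [← Real.rpow_add hw, hsum, Real.rpow_one]
      calc _ = B * ((w ^ (1 / (p / (p - 1))) * w ^ (1 / p)) * y ^ (p - 1)) := by ring
        _ = _ := by rw [this]
    have e2 : (w ^ (1 / (p / (p - 1))) * y ^ (p - 1)) ^ (p / (p - 1)) = w * y ^ p := by
      rw [Real.mul_rpow (by positivity) (by positivity), ← Real.rpow_mul hw.le,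
        ← Real.rpow_mul hy, one_div_mul_cancel hq0.ne', Real.rpow_one]
      congr 2
      field_simp
    have e3 : (w ^ (1 / p)) ^ p = w := by
      rw [← Real.rpow_mul hw.le, one_div_mul_cancel hp0.ne', Real.rpow_one]
    rw [e1, e2, e3] at h
    have hδ : 0 ≤ α / (4 * (β * m * G) * C₁) := by positivity
    have hc : (0:ℝ) ≤ β * m * G := by positivity
    calc B * (β * (w * y ^ (p - 1))) * (m * e ^ (m - 1) * G)
        = β * m * G * (e ^ (m - 1) * (B * (w * y ^ (p - 1)))) := by ring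
      _ ≤ β * m * G * (α / (4 * (β * m * G) * C₁) * (e ^ m * (B ^ (p / (p - 1)) * (w * y ^ p))) +
            Ca * w) := mul_le_mul_of_nonneg_left h hc
      _ ≤ β * m * G * (α / (4 * (β * m * G) * C₁) * (e ^ m * (C₁ * k * (w * y ^ p))) +
            Ca * w) := by gcongr
      _ = α / 4 * (e ^ m * (k * (w * y ^ p))) + β * m * G * Ca * w := by
          field_simp
      _ ≤ _ := by gcongr; exact le_max_left _ _
  · intro hBk
    have h := hb e B (w ^ (1 / p) * y) (w ^ (-(1 / p))) he0 he1 hB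
      (by positivity) (by positivity)
    have e1 : B * (w ^ (1 / p) * y) * w ^ (-(1 / p)) = B * y := by
      have : w ^ (1 / p) * w ^ (-(1 / p)) = 1 := by
        rw [← Real.rpow_add hw, add_neg_cancel, Real.rpow_zero]
      calc _ = B * y * (w ^ (1 / p) * w ^ (-(1 / p))) := by ring
        _ = _ := by rw [this, mul_one]
    have e2 : (w ^ (1 / p) * y) ^ p = w * y ^ p := by
      rw [Real.mul_rpow (by positivity) hy, ← Real.rpow_mul hw.le, one_div_mul_cancel hp0.ne',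
        Real.rpow_one]
    have e3 : (w ^ (-(1 / p))) ^ (p / (p - 1)) = w ^ (-(1 / (p - 1))) := by
      rw [← Real.rpow_mul hw.le]
      congr 1
      field_simp
    rw [e1, e2, e3] at h
    have hδ : 0 ≤ α / (4 * (m * G) * C₁) := by positivity
    have hc : (0:ℝ) ≤ m * G := by positivity
    have hσ : 0 ≤ w ^ (-(1 / (p - 1))) := by positivity
    calc B * y * (m * e ^ (m - 1) * G)
        = m * G * (e ^ (m - 1) * (B * y)) := by ring
      _ ≤ m * G * (α / (4 * (m * G) * C₁) * (e ^ m * (B ^ p * (w * y ^ p))) +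
            Cb * w ^ (-(1 / (p - 1)))) := mul_le_mul_of_nonneg_left h hc
      _ ≤ m * G * (α / (4 * (m * G) * C₁) * (e ^ m * (C₁ * k * (w * y ^ p))) +
            Cb * w ^ (-(1 / (p - 1)))) := by gcongr
      _ = α / 4 * (e ^ m * (k * (w * y ^ p))) + m * G * Cb * w ^ (-(1 / (p - 1))) := by
          field_simp
      _ ≤ _ := by gcongr; exact le_max_right _ _

/-- the module MEST -/
theorem mest (hI : IdentStatement) (hE : EmbStatement) (hC : CutStatement) : MestStatement := by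
  intro p α β w z r r' u v V a C₁ hP hr' hrr hC₁
  have hp := hP.wt.hp
  have hα := hP.hα
  have hβ := hP.hβ
  set D : Set (E 2) := ball z r with hD
  have hDo : IsOpen D := isOpen_ball
  have hDm : MeasurableSet D := hDo.measurableSet
  set ν : Measure (E 2) := volume.restrict D with hν
  -- exponents
  obtain ⟨m, hm1, hmp, hmq⟩ : ∃ m : ℕ, 1 ≤ m ∧ p ≤ m ∧ p / (p - 1) ≤ m := by
    refine ⟨⌈max p (p / (p - 1))⌉₊, ?_, (le_max_left _ _).trans (Nat.le_ceil _),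
      (le_max_right _ _).trans (Nat.le_ceil _)⟩
    rw [Nat.one_le_ceil_iff]
    exact lt_max_of_lt_left (by linarith)
  -- cut-off
  obtain ⟨G₀, hG₀, hcut⟩ := hC 2
  obtain ⟨ζ, hζ, hζ1, hζr, hζs, hζg⟩ := hcut z r' ((r + r') / 2) hr' (by linarith)
  set G : ℝ := G₀ / ((r + r') / 2 - r') with hG
  have hG0 : 0 < G := div_pos hG₀ (by linarith)
  have hζD : Test D ζ := ⟨hζ.1, hζ.2.1, hζs.trans (closedBall_subset_ball (by linarith))⟩
  have hη : Test D fun x => ζ x ^ m := Test.pow hζD hm1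
  obtain ⟨C, hC0, hpw⟩ := pw hp hα hβ hC₁ hG0 hm1 hmp hmq
  -- measurability and integrability
  have hsu := hE p w D u V hP.wt hP.sobu
  have hum : AEStronglyMeasurable u ν := hsu.1.1
  have hV1 : Integrable V ν := by
    have := hsu.2.1
    rwa [ENNReal.ofReal_one, memLp_one_iff_integrable] at this
  have hvm : AEStronglyMeasurable v ν := hP.sobv.1.1
  have hra : Integrable (fun x => rot (a x)) ν := by
    have := hP.sobv.2.1
    rwa [ENNReal.ofReal_one, memLp_one_iff_integrable] at this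
  have ham : AEStronglyMeasurable a ν := by
    have h1 : AEStronglyMeasurable (fun x => -rot (rot (a x))) ν :=
      (continuous_rot.comp_aestronglyMeasurable hra.1).neg
    refine h1.congr (Eventually.of_forall fun x => ?_)
    show -rot (rot (a x)) = a x
    rw [rot_rot, neg_neg]
  have ha1 : Integrable a ν :=
    hra.norm.mono' ham (Eventually.of_forall fun x => (norm_rot (a x)).symm.le)
  have hrV : Integrable (fun x => rot (V x)) ν :=
    hV1.norm.mono' (continuous_rot.comp_aestronglyMeasurable hV1.1)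
      (Eventually.of_forall fun x => (norm_rot (V x)).le)
  have hen : Integrable (fun x => w x * ‖V x‖ ^ p) ν := energy hP.wt hP.sobu.2.1
  have hw1 : Integrable w ν := hP.wt.int
  have hw2 : Integrable (fun x => w x ^ (-(1 / (p - 1)))) ν := hP.wt.dual
  have hpos : ∀ᵐ x ∂ν, 0 < w x := hP.wt.pos
  have hJb : ∀ᵐ x ∂ν, α * (w x * ‖V x‖ ^ p) ≤ ⟪a x, V x⟫ ∧
      ⟪a x, V x⟫ ≤ β * (w x * ‖V x‖ ^ p) := by
    filter_upwards [hP.ell, hP.bdd, hpos] with x h1 h2 h3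
    refine ⟨h1, ?_⟩
    have h4 : ‖V x‖ ^ (p - 1) * ‖V x‖ = ‖V x‖ ^ p := by
      rcases (norm_nonneg (V x)).eq_or_lt with h0 | h0
      · rw [← h0, Real.zero_rpow (by linarith), Real.zero_rpow (by linarith), zero_mul]
      · rw [← Real.rpow_add_one h0.ne']
        congr 1
        ring
    calc ⟪a x, V x⟫ ≤ ‖a x‖ * ‖V x‖ := real_inner_le_norm _ _
      _ ≤ β * (w x * ‖V x‖ ^ (p - 1)) * ‖V x‖ := by gcongr
      _ = β * (w x * (‖V x‖ ^ (p - 1) * ‖V x‖)) := by ring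
      _ = _ := by rw [h4]
  have hJm : AEStronglyMeasurable (fun x => ⟪a x, V x⟫) ν := ham.inner hV1.1
  have hJ : Integrable (fun x => ⟪a x, V x⟫) ν := by
    refine (hen.const_mul β).mono' hJm ?_
    filter_upwards [hJb, hpos] with x h1 h2
    rw [Real.norm_of_nonneg]
    · exact h1.2
    · refine le_trans ?_ h1.1
      positivity
  refine ⟨2 / α * (C₁ * (β * ∫ x, w x * ‖V x‖ ^ p ∂ν) + C * (∫ x, w x ∂ν) +
    C * ∫ x, w x ^ (-(1 / (p - 1))) ∂ν), ?_⟩
  intro b c K hT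
  obtain ⟨hKm, MK, hMK, hKb⟩ := bounded_comp hT.smK hT.csK hum hvm
  obtain ⟨hbm, Mb, hMb, hbb⟩ := bounded_comp hT.smb.continuous hT.csb hum hvm
  obtain ⟨hcm, Mc, hMc, hcb⟩ := bounded_comp hT.smc.continuous hT.csc hum hvm
  obtain ⟨hb1m, Mb1, hMb1, hb1b⟩ := bounded_comp (contDiff_fderiv_apply hT.smb hT.csb (1, 0)).1
    (contDiff_fderiv_apply hT.smb hT.csb (1, 0)).2 hum hvm
  obtain ⟨hc2m, Mc2, hMc2, hc2b⟩ := bounded_comp (contDiff_fderiv_apply hT.smc hT.csc (0, 1)).1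
    (contDiff_fderiv_apply hT.smc hT.csc (0, 1)).2 hum hvm
  have hb := (hI p α β w D u v V a b _ hP hT.smb hT.csb hη).1
  have hc := (hI p α β w D u v V a c _ hP hT.smc hT.csc hη).2
  have hη0 : ∀ x, x ∉ D → ζ x ^ m = 0 := fun x hx =>
    image_eq_zero_of_notMem_tsupport (f := fun x => ζ x ^ m) fun h => hx (hη.2.2 h)
  have hgη0 : ∀ x, x ∉ D → ∇ (fun x => ζ x ^ m) x = 0 := fun x hx =>
    grad_eq_zero_of_notMem fun h => hx (hη.2.2 h)
  have t1 : ∫ x, ζ x ^ m * (fderiv ℝ b (u x, v x) (1, 0) * ⟪a x, V x⟫) ∂ν =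
      ∫ x, ζ x ^ m * (fderiv ℝ b (u x, v x) (1, 0) * ⟪a x, V x⟫) :=
    setIntegral_eq_integral_of_forall_compl_eq_zero fun x hx => by rw [hη0 x hx, zero_mul]
  have t2 : ∫ x, b (u x, v x) * ⟪a x, ∇ (fun x => ζ x ^ m) x⟫ ∂ν =
      ∫ x, b (u x, v x) * ⟪a x, ∇ (fun x => ζ x ^ m) x⟫ :=
    setIntegral_eq_integral_of_forall_compl_eq_zero fun x hx => by
      rw [hgη0 x hx, inner_zero_right, mul_zero]
  have t3 : ∫ x, ζ x ^ m * (fderiv ℝ c (u x, v x) (0, 1) * ⟪a x, V x⟫) ∂ν =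
      ∫ x, ζ x ^ m * (fderiv ℝ c (u x, v x) (0, 1) * ⟪a x, V x⟫) :=
    setIntegral_eq_integral_of_forall_compl_eq_zero fun x hx => by rw [hη0 x hx, zero_mul]
  have t4 : ∫ x, c (u x, v x) * ⟪∇ (fun x => ζ x ^ m) x, rot (V x)⟫ ∂ν =
      ∫ x, c (u x, v x) * ⟪∇ (fun x => ζ x ^ m) x, rot (V x)⟫ :=
    setIntegral_eq_integral_of_forall_compl_eq_zero fun x hx => by
      rw [hgη0 x hx, inner_zero_left, mul_zero]
  rw [← t1, ← t2] at hb
  rw [← t3, ← t4] at hc
  have hζ0 : ∀ x, 0 ≤ ζ x := fun x => (hζ1 x).1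
  have hζ11 : ∀ x, ζ x ≤ 1 := fun x => (hζ1 x).2
  have hηm : AEStronglyMeasurable (fun x => ζ x ^ m) ν :=
    (hζ.1.continuous.pow m).aestronglyMeasurable
  have hηb : ∀ x, ‖ζ x ^ m‖ ≤ 1 := fun x => by
    rw [Real.norm_of_nonneg (pow_nonneg (hζ0 x) m)]
    exact pow_le_one₀ (hζ0 x) (hζ11 x)
  -- integrability
  have iK : Integrable (fun x => ζ x ^ m * (K (u x, v x) * (w x * ‖V x‖ ^ p))) ν :=
    (hen.bdd_mul hKm (Eventually.of_forall fun x => hKb _)).bdd_mul hηm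
      (Eventually.of_forall hηb)
  have i1 : Integrable (fun x => ζ x ^ m * (fderiv ℝ b (u x, v x) (1, 0) * ⟪a x, V x⟫)) ν :=
    (hJ.bdd_mul hb1m (Eventually.of_forall fun x => hb1b _)).bdd_mul hηm
      (Eventually.of_forall hηb)
  have i2 : Integrable (fun x => ζ x ^ m * (fderiv ℝ c (u x, v x) (0, 1) * ⟪a x, V x⟫)) ν :=
    (hJ.bdd_mul hc2m (Eventually.of_forall fun x => hc2b _)).bdd_mul hηm
      (Eventually.of_forall hηb)
  have i3 : Integrable (fun x => ζ x ^ m * ⟪a x, V x⟫) ν :=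
    hJ.bdd_mul hηm (Eventually.of_forall hηb)
  have hgm : AEStronglyMeasurable (fun x => ∇ (fun x => ζ x ^ m) x) ν :=
    (continuous_grad hη.1).aestronglyMeasurable
  obtain ⟨Mη, hMη, -, hgb⟩ := hη.exists_bound
  have i4 : Integrable (fun x => b (u x, v x) * ⟪a x, ∇ (fun x => ζ x ^ m) x⟫) ν := by
    refine Integrable.bdd_mul (c := Mb) ?_ hbm (Eventually.of_forall fun x => hbb _)
    refine (ha1.norm.mul_const Mη).mono' (ham.inner hgm) (Eventually.of_forall fun x => ?_)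
    exact (norm_inner_le_norm _ _).trans (mul_le_mul_of_nonneg_left (hgb x) (norm_nonneg _))
  have i5 : Integrable (fun x => c (u x, v x) * ⟪∇ (fun x => ζ x ^ m) x, rot (V x)⟫) ν := by
    refine Integrable.bdd_mul (c := Mc) ?_ hcm (Eventually.of_forall fun x => hcb _)
    refine (hrV.norm.const_mul Mη).mono' (hgm.inner hrV.1) (Eventually.of_forall fun x => ?_)
    exact (norm_inner_le_norm _ _).trans (mul_le_mul_of_nonneg_right (hgb x) (norm_nonneg _))
  -- the gradient of the cut-off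
  have hgr : ∀ x, ‖∇ (fun x => ζ x ^ m) x‖ ≤ m * ζ x ^ (m - 1) * G := by
    intro x
    have h0 : 0 ≤ (m : ℝ) * ζ x ^ (m - 1) := mul_nonneg (Nat.cast_nonneg m) (pow_nonneg (hζ0 x) _)
    rw [grad_pow hζD, norm_smul, Real.norm_of_nonneg h0]
    exact mul_le_mul_of_nonneg_left (hζg x) h0
  -- pointwise inequalities
  have hK0 : ∀ x, 0 ≤ K (u x, v x) := fun x => hT.nonneg _
  have p1 : ∀ᵐ x ∂ν, α * (ζ x ^ m * (K (u x, v x) * (w x * ‖V x‖ ^ p))) ≤
      ζ x ^ m * (fderiv ℝ b (u x, v x) (1, 0) * ⟪a x, V x⟫) +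
      ζ x ^ m * (fderiv ℝ c (u x, v x) (0, 1) * ⟪a x, V x⟫) +
      C₁ * (ζ x ^ m * ⟪a x, V x⟫) := by
    filter_upwards [hJb, hpos] with x h1 h2
    have h3 : 0 ≤ ζ x ^ m := pow_nonneg (hζ0 x) m
    have h4 : 0 ≤ ⟪a x, V x⟫ := le_trans (by positivity) h1.1
    have h5 := hT.div (u x, v x)
    calc α * (ζ x ^ m * (K (u x, v x) * (w x * ‖V x‖ ^ p)))
        = ζ x ^ m * K (u x, v x) * (α * (w x * ‖V x‖ ^ p)) := by ring
      _ ≤ ζ x ^ m * K (u x, v x) * ⟪a x, V x⟫ :=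
          mul_le_mul_of_nonneg_left h1.1 (mul_nonneg h3 (hK0 x))
      _ ≤ ζ x ^ m * (fderiv ℝ b (u x, v x) (1, 0) + fderiv ℝ c (u x, v x) (0, 1) + C₁) *
            ⟪a x, V x⟫ := by
          refine mul_le_mul_of_nonneg_right (mul_le_mul_of_nonneg_left ?_ h3) h4
          linarith
      _ = _ := by ring
  have p2 : ∀ᵐ x ∂ν, -(b (u x, v x) * ⟪a x, ∇ (fun x => ζ x ^ m) x⟫) ≤
      α / 4 * (ζ x ^ m * (K (u x, v x) * (w x * ‖V x‖ ^ p))) + C * w x := by
    filter_upwards [hP.bdd, hpos] with x h1 h2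
    have h3 := (hpw (ζ x) ‖V x‖ (w x) |b (u x, v x)| (K (u x, v x)) (hζ0 x) (hζ11 x)
      (norm_nonneg _) h2 (abs_nonneg _) (hK0 x)).1 (hT.boundb _)
    refine le_trans ?_ h3
    refine (neg_le_abs _).trans ?_
    rw [abs_mul, mul_assoc]
    refine mul_le_mul_of_nonneg_left ?_ (abs_nonneg _)
    calc |⟪a x, ∇ (fun x => ζ x ^ m) x⟫| ≤ ‖a x‖ * ‖∇ (fun x => ζ x ^ m) x‖ :=
          abs_real_inner_le_norm _ _
      _ ≤ _ := mul_le_mul h1 (hgr x) (norm_nonneg _) (by positivity)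
  have p3 : ∀ᵐ x ∂ν, -(c (u x, v x) * ⟪∇ (fun x => ζ x ^ m) x, rot (V x)⟫) ≤
      α / 4 * (ζ x ^ m * (K (u x, v x) * (w x * ‖V x‖ ^ p))) +
        C * w x ^ (-(1 / (p - 1))) := by
    filter_upwards [hpos] with x h2
    have h3 := (hpw (ζ x) ‖V x‖ (w x) |c (u x, v x)| (K (u x, v x)) (hζ0 x) (hζ11 x)
      (norm_nonneg _) h2 (abs_nonneg _) (hK0 x)).2 (hT.boundc _)
    refine le_trans ?_ h3
    refine (neg_le_abs _).trans ?_
    rw [abs_mul, mul_assoc]
    refine mul_le_mul_of_nonneg_left ?_ (abs_nonneg _)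
    calc |⟪∇ (fun x => ζ x ^ m) x, rot (V x)⟫| ≤ ‖∇ (fun x => ζ x ^ m) x‖ * ‖rot (V x)‖ :=
          abs_real_inner_le_norm _ _
      _ = ‖V x‖ * ‖∇ (fun x => ζ x ^ m) x‖ := by rw [norm_rot, mul_comm]
      _ ≤ _ := mul_le_mul_of_nonneg_left (hgr x) (norm_nonneg _)
  have p4 : ∀ᵐ x ∂ν, ζ x ^ m * ⟪a x, V x⟫ ≤ β * (w x * ‖V x‖ ^ p) := by
    filter_upwards [hJb, hpos] with x h1 h2
    have h4 : 0 ≤ ⟪a x, V x⟫ := le_trans (by positivity) h1.1
    calc ζ x ^ m * ⟪a x, V x⟫ ≤ 1 * ⟪a x, V x⟫ :=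
          mul_le_mul_of_nonneg_right (pow_le_one₀ (hζ0 x) (hζ11 x)) h4
      _ ≤ _ := by rw [one_mul]; exact h1.2
  -- integration
  have q1 := integral_mono_ae (iK.const_mul α) ((i1.add i2).add (i3.const_mul C₁)) p1
  have q2 := integral_mono_ae i4.neg ((iK.const_mul (α / 4)).add (hw1.const_mul C)) p2
  have q3 := integral_mono_ae i5.neg ((iK.const_mul (α / 4)).add (hw2.const_mul C)) p3
  have q4 := integral_mono_ae i3 (hen.const_mul β) p4
  have e1 := integral_add (i1.add i2) (i3.const_mul C₁)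
  have e1' := integral_add i1 i2
  have e2 := integral_add (iK.const_mul (α / 4)) (hw1.const_mul C)
  have e3 := integral_add (iK.const_mul (α / 4)) (hw2.const_mul C)
  have e4 := integral_neg (μ := ν)
    (fun x => b (u x, v x) * ⟪a x, ∇ (fun x => ζ x ^ m) x⟫)
  have e5 := integral_neg (μ := ν)
    (fun x => c (u x, v x) * ⟪∇ (fun x => ζ x ^ m) x, rot (V x)⟫)
  simp only [integral_const_mul, Pi.add_apply, Pi.neg_apply] at q1 q2 q3 q4 e1 e1' e2 e3 e4 e5
  set X := ∫ x, ζ x ^ m * (K (u x, v x) * (w x * ‖V x‖ ^ p)) ∂ν with hX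
  have hX1 : α / 2 * X ≤ C₁ * (β * ∫ x, w x * ‖V x‖ ^ p ∂ν) + C * (∫ x, w x ∂ν) +
      C * ∫ x, w x ^ (-(1 / (p - 1))) ∂ν := by
    have h1 : C₁ * ∫ x, ζ x ^ m * ⟪a x, V x⟫ ∂ν ≤ C₁ * (β * ∫ x, w x * ‖V x‖ ^ p ∂ν) :=
      mul_le_mul_of_nonneg_left q4 hC₁.le
    linarith
  have hX2 : X ≤ 2 / α * (C₁ * (β * ∫ x, w x * ‖V x‖ ^ p ∂ν) + C * (∫ x, w x ∂ν) +
      C * ∫ x, w x ^ (-(1 / (p - 1))) ∂ν) := by
    have h2 := mul_le_mul_of_nonneg_left hX1 (show 0 ≤ 2 / α by positivity)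
    calc X = 2 / α * (α / 2 * X) := by field_simp
      _ ≤ _ := h2
  refine le_trans ?_ hX2
  have e6 : ∫ x in ball z r', K (u x, v x) * (w x * ‖V x‖ ^ p) =
      ∫ x in ball z r', ζ x ^ m * (K (u x, v x) * (w x * ‖V x‖ ^ p)) := by
    refine setIntegral_congr_fun measurableSet_ball fun x hx => ?_
    show K (u x, v x) * (w x * ‖V x‖ ^ p) = ζ x ^ m * (K (u x, v x) * (w x * ‖V x‖ ^ p))
    rw [hζr x (ball_subset_closedBall hx), one_pow, one_mul]
  rw [e6, hX]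
  refine setIntegral_mono_set iK ?_ (ball_subset_ball hrr.le).eventuallyLE
  filter_upwards [hpos] with x h2
  have h3 : 0 ≤ ζ x ^ m := pow_nonneg (hζ0 x) m
  have h4 := hK0 x
  show 0 ≤ ζ x ^ m * (K (u x, v x) * (w x * ‖V x‖ ^ p))
  positivity

end Pool.Agent.Lib.MP_abd978_an.PL.H48
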